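import Pool.Agent.H21.GroupTestingProof

open Pool.Agent.H21.GroupTesting

namespace Pool.Agent.Results.MP_8aa41f_lc.NoLogTests

/-- Two-stage group testing with arithmetic-progression tests: `O(k log n)` first-stage tests are
not enough. -/
theorem result :
    (∀ C C' : ℝ, ∃ δ : ℝ, 0 < δ ∧ ∃ N : ℕ, ∀ n : ℕ, N ≤ n → ∀ k : ℕ, 1 ≤ k →
      (k : ℝ) ≤ δ * Real.log n → ∀ m q : ℕ, (m : ℝ) ≤ C' * k * Real.log n → (q : ℝ) ≤ C * k →
        ¬ HasProcedure n k m q) ∧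
    ¬ ∃ C C' : ℝ, ∀ n k : ℕ, 1 ≤ k → k ≤ n → ∃ m q : ℕ, (m : ℝ) ≤ C' * k * Real.log n ∧
      (q : ℝ) ≤ C * k ∧ HasProcedure n k m q := by
  refine ⟨main, ?_⟩
  rintro ⟨C, C', hall⟩
  obtain ⟨δ, hδ, N, hN⟩ := main C C'
  have h1 : ∀ᶠ n : ℕ in Filter.atTop, 1 / δ ≤ Real.log n :=
    (Real.tendsto_log_atTop.comp tendsto_natCast_atTop_atTop).eventually
      (Filter.eventually_ge_atTop (1 / δ))
  obtain ⟨n, hn1, hn2, hn3⟩ :=
    (h1.and ((Filter.eventually_ge_atTop N).and (Filter.eventually_ge_atTop 1))).exists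
  obtain ⟨m, q, hm, hq, hP⟩ := hall n 1 le_rfl hn3
  refine hN n hn2 1 le_rfl ?_ m q hm hq hP
  rw [div_le_iff₀ hδ] at hn1
  push_cast
  linarith

end Pool.Agent.Results.MP_8aa41f_lc.NoLogTests
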